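import Mathlib

set_option autoImplicit false

namespace Q125.Inv

/-- A finite relation without directed cycles has a rank function. -/
theorem exists_rank {V : Type} [Finite V] (A : V → V → Prop)
    (h : ∀ v, ¬ Relation.TransGen A v v) : ∃ r : V → ℤ, ∀ u v, A u v → r u < r v := by
  refine ⟨fun v => ({w | Relation.TransGen A w v}.ncard : ℤ), fun u v huv => ?_⟩
  have : {w | Relation.TransGen A w u}.ncard < {w | Relation.TransGen A w v}.ncard := by
    apply Set.ncard_lt_ncard _ (Set.toFinite _)
    refine ⟨fun w hw => Relation.TransGen.tail hw huv, fun hsub => ?_⟩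
    exact h u (hsub (Relation.TransGen.single huv))
  exact Int.ofNat_lt.2 this

theorem acyclic_of_rank {V : Type} (A : V → V → Prop) (r : V → ℤ)
    (h : ∀ u v, A u v → r u < r v) : ∀ v, ¬ Relation.TransGen A v v := by
  have key : ∀ u v, Relation.TransGen A u v → r u < r v := by
    intro u v huv
    induction huv with
    | single h1 => exact h _ _ h1
    | tail _ h1 ih => exact ih.trans (h _ _ h1)
  intro v hv
  exact lt_irrefl _ (key v v hv)

end Q125.Inv
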