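import Mathlib

set_option autoImplicit false

set_option linter.unusedSimpArgs false

namespace Q125.Inv

open Matrix

theorem mul_one_submatrix {F W κ : Type*} [Field F] [Fintype W] [DecidableEq W]
    (M : Matrix W W F) (f : κ → W) :
    M * (1 : Matrix W W F).submatrix id f = M.submatrix id f := by
  ext a b
  simp [Matrix.mul_apply, Matrix.one_apply]

/-- Rank inequality for Schur complements. -/
theorem rank_schur {F V W ι : Type*} [Field F] [Fintype V] [Fintype W] [Fintype ι]
    [DecidableEq V] [DecidableEq W] [DecidableEq ι]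
    (M : Matrix W W F) (j : V → W) (S : ι → W) (Q : Matrix ι ι F)
    (hQ : M.submatrix S S * Q = 1) :
    (M.submatrix j j - M.submatrix j S * Q * M.submatrix S j).rank + Fintype.card ι ≤ M.rank := by
  classical
  let R := LinearMap.range M.mulVecLin
  let φ : R →ₗ[F] (ι → F) := (LinearMap.funLeft F F S).comp R.subtype
  have hsurj : LinearMap.range φ = ⊤ := by
    rw [LinearMap.range_eq_top]
    intro z
    refine ⟨⟨M *ᵥ (((1 : Matrix W W F).submatrix id S) *ᵥ (Q *ᵥ z)), ⟨_, rfl⟩⟩, ?_⟩
    show (M *ᵥ (((1 : Matrix W W F).submatrix id S) *ᵥ (Q *ᵥ z))) ∘ S = z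
    rw [Matrix.mulVec_mulVec, mul_one_submatrix]
    have h1 : ((M.submatrix id S) *ᵥ (Q *ᵥ z)) ∘ S = (M.submatrix S S) *ᵥ (Q *ᵥ z) := by
      ext i
      rfl
    rw [h1, Matrix.mulVec_mulVec, hQ, Matrix.one_mulVec]
  have hdim := LinearMap.finrank_range_add_finrank_ker φ
  rw [hsurj, finrank_top, Module.finrank_fintype_fun_eq_card] at hdim
  let ψ : LinearMap.ker φ →ₗ[F] (V → F) :=
    ((LinearMap.funLeft F F j).comp R.subtype).comp (LinearMap.ker φ).subtype
  have hle : LinearMap.range
      (M.submatrix j j - M.submatrix j S * Q * M.submatrix S j).mulVecLin ≤ LinearMap.range ψ := by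
    rintro y ⟨x, rfl⟩
    let xh : W → F := ((1 : Matrix W W F).submatrix id j) *ᵥ x -
      ((1 : Matrix W W F).submatrix id S) *ᵥ (Q *ᵥ (M.submatrix S j *ᵥ x))
    have hx : M *ᵥ xh = (M.submatrix id j) *ᵥ x -
        (M.submatrix id S) *ᵥ (Q *ᵥ (M.submatrix S j *ᵥ x)) := by
      show M *ᵥ (_ - _) = _
      rw [Matrix.mulVec_sub, Matrix.mulVec_mulVec, mul_one_submatrix, Matrix.mulVec_mulVec, mul_one_submatrix]
    have hk : (⟨M *ᵥ xh, ⟨xh, rfl⟩⟩ : R) ∈ LinearMap.ker φ := by
      rw [LinearMap.mem_ker]
      show (M *ᵥ xh) ∘ S = 0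
      rw [hx]
      have h1 : ((M.submatrix id j) *ᵥ x -
        (M.submatrix id S) *ᵥ (Q *ᵥ (M.submatrix S j *ᵥ x))) ∘ S =
          (M.submatrix S j) *ᵥ x - (M.submatrix S S) *ᵥ (Q *ᵥ (M.submatrix S j *ᵥ x)) := by
        ext i
        rfl
      rw [h1, Matrix.mulVec_mulVec, hQ, Matrix.one_mulVec, sub_self]
    refine ⟨⟨_, hk⟩, ?_⟩
    show (M *ᵥ xh) ∘ j = _
    rw [hx]
    have h1 : ((M.submatrix id j) *ᵥ x -
        (M.submatrix id S) *ᵥ (Q *ᵥ (M.submatrix S j *ᵥ x))) ∘ j =
          (M.submatrix j j) *ᵥ x - (M.submatrix j S) *ᵥ (Q *ᵥ (M.submatrix S j *ᵥ x)) := by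
      ext i
      rfl
    rw [h1, Matrix.mulVecLin_apply, Matrix.sub_mulVec, Matrix.mulVec_mulVec, Matrix.mulVec_mulVec,
      Matrix.mul_assoc]
  have h2 : (M.submatrix j j - M.submatrix j S * Q * M.submatrix S j).rank ≤
      Module.finrank F (LinearMap.ker φ) :=
    (Submodule.finrank_mono hle).trans (LinearMap.finrank_range_le ψ)
  have h3 : M.rank = Module.finrank F R := rfl
  omega

/-- `M` and `r` certify that reversing the arcs `uv` of `D` with `M u v = 1` gives an acyclic
digraph. -/
def Good {V : Type} (D : V → V → Prop) (M : V → V → ZMod 2) (r : V → ℤ) : Prop :=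
  ∀ u v, D u v → (M u v = 0 → r u < r v) ∧ (M u v = 1 → r v < r u)

theorem zmod2 (x : ZMod 2) : x = 0 ∨ x = 1 := by
  revert x
  decide

theorem step {m s : ZMod 2} {x y x' y' : ℤ} (h : (m = 0 → x < y) ∧ (m = 1 → y < x))
    (h0 : s = 0 → (x < y → x' < y') ∧ (y < x → y' < x'))
    (h1 : s = 1 → (x < y → y' < x') ∧ (y < x → x' < y')) :
    (m + s = 0 → x' < y') ∧ (m + s = 1 → y' < x') := by
  rcases zmod2 m with rfl | rfl <;> rcases zmod2 s with rfl | rfl
  · exact ⟨fun _ => (h0 rfl).1 (h.1 rfl), fun h => absurd h (by decide)⟩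
  · exact ⟨fun h => absurd h (by decide), fun _ => (h1 rfl).1 (h.1 rfl)⟩
  · exact ⟨fun h => absurd h (by decide), fun _ => (h0 rfl).2 (h.2 rfl)⟩
  · exact ⟨fun _ => (h1 rfl).2 (h.2 rfl), fun h => absurd h (by decide)⟩

/-- the new position of a vertex at position `r` with data `a`, `b` -/
def newPos (K : ℤ) (α β γ a b : ZMod 2) (r : ℤ) : ℤ :=
  if a = 0 then r
  else if b = 0 then
    (if α + β = 0 then 3 * K else 6 * K) + (if α = 0 then r else - r)
  else
    (if α + β = 0 then 6 * K else 3 * K) + (if α + γ = 0 then r else - r)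

theorem good_change_aux {K p q x y : ℤ} {α β γ a b c d : ZMod 2} (hpq : p ≤ q)
    (ha : (a = 0 → x < p) ∧ (a = 1 → p < x)) (hb : (b = 0 → x < q) ∧ (b = 1 → q < x))
    (hc : (c = 0 → y < p) ∧ (c = 1 → p < y)) (hd : (d = 0 → y < q) ∧ (d = 1 → q < y))
    (kx : -K < x ∧ x < K) (ky : -K < y ∧ y < K) :
    (α * (a * c) + β * (a * d + b * c) + γ * (b * d) = 0 →
      (x < y → newPos K α β γ a b x < newPos K α β γ c d y) ∧
      (y < x → newPos K α β γ c d y < newPos K α β γ a b x)) ∧
    (α * (a * c) + β * (a * d + b * c) + γ * (b * d) = 1 →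
      (x < y → newPos K α β γ c d y < newPos K α β γ a b x) ∧
      (y < x → newPos K α β γ a b x < newPos K α β γ c d y)) := by
  obtain ⟨kx1, kx2⟩ := kx
  obtain ⟨ky1, ky2⟩ := ky
  have e1 : ((1 : ZMod 2) = 0) = False := by decide
  have e2 : ((0 : ZMod 2) = 1) = False := by decide
  have e3 : (1 : ZMod 2) + 1 = 0 := by decide
  rcases zmod2 a with rfl | rfl
  · have hx : x < p := ha.1 rfl
    have hb0 : b = 0 := by
      rcases zmod2 b with h | h
      · exact h
      · have := hb.2 h; omega
    subst hb0
    rcases zmod2 c with rfl | rfl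
    · have hy : y < p := hc.1 rfl
      have hd0 : d = 0 := by
        rcases zmod2 d with h | h
        · exact h
        · have := hd.2 h; omega
      subst hd0
      simp [newPos]
    · have hy : p < y := hc.2 rfl
      rcases zmod2 d with rfl | rfl
      · simp only [newPos, e1, if_true, if_false, mul_zero, zero_mul, add_zero, e2]
        refine ⟨fun _ => ?_, fun h => h.elim⟩
        split_ifs <;> constructor <;> intro <;> omega
      · simp only [newPos, e1, if_true, if_false, mul_zero, zero_mul, add_zero, e2]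
        refine ⟨fun _ => ?_, fun h => h.elim⟩
        split_ifs <;> constructor <;> intro <;> omega
  · have hx : p < x := ha.2 rfl
    rcases zmod2 c with rfl | rfl
    · have hy : y < p := hc.1 rfl
      have hd0 : d = 0 := by
        rcases zmod2 d with h | h
        · exact h
        · have := hd.2 h; omega
      subst hd0
      rcases zmod2 b with rfl | rfl
      · simp only [newPos, e1, if_true, if_false, mul_zero, zero_mul, add_zero, e2]
        refine ⟨fun _ => ?_, fun h => h.elim⟩
        split_ifs <;> constructor <;> intro <;> omega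
      · simp only [newPos, e1, if_true, if_false, mul_zero, zero_mul, add_zero, e2]
        refine ⟨fun _ => ?_, fun h => h.elim⟩
        split_ifs <;> constructor <;> intro <;> omega
    · have hy : p < y := hc.2 rfl
      rcases zmod2 b with rfl | rfl <;> rcases zmod2 d with rfl | rfl
      · have hx2 := hb.1 rfl
        have hy2 := hd.1 rfl
        simp only [newPos, e1, if_false, if_true, mul_zero, mul_one, add_zero]
        rcases zmod2 α with rfl | rfl
        · simp only [if_true, e2]
          refine ⟨fun _ => ?_, fun h => h.elim⟩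
          constructor <;> intro <;> split_ifs <;> omega
        · simp only [if_false, e1]
          refine ⟨fun h => h.elim, fun _ => ?_⟩
          constructor <;> intro <;> split_ifs <;> omega
      · have hx2 := hb.1 rfl
        have hy2 := hd.2 rfl
        simp only [newPos, e1, if_false, if_true, mul_zero, mul_one, add_zero, zero_mul]
        rcases zmod2 (α + β) with h | h <;> simp only [h, if_true, if_false, e1, e2]
        · refine ⟨fun _ => ?_, fun h => h.elim⟩
          constructor <;> intro <;> split_ifs <;> omega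
        · refine ⟨fun h => h.elim, fun _ => ?_⟩
          constructor <;> intro <;> split_ifs <;> omega
      · have hx2 := hb.2 rfl
        have hy2 := hd.1 rfl
        simp only [newPos, e1, if_false, if_true, mul_zero, mul_one, add_zero, zero_add]
        rcases zmod2 (α + β) with h | h <;> simp only [h, if_true, if_false, e1, e2]
        · refine ⟨fun _ => ?_, fun h => h.elim⟩
          constructor <;> intro <;> split_ifs <;> omega
        · refine ⟨fun h => h.elim, fun _ => ?_⟩
          constructor <;> intro <;> split_ifs <;> omega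
      · have hx2 := hb.2 rfl
        have hy2 := hd.2 rfl
        simp only [newPos, e1, if_false, mul_one, e3, mul_zero, add_zero]
        rcases zmod2 (α + γ) with h | h <;> simp only [h, if_true, if_false, e1, e2]
        · refine ⟨fun _ => ?_, fun h => h.elim⟩
          constructor <;> intro <;> split_ifs <;> omega
        · refine ⟨fun h => h.elim, fun _ => ?_⟩
          constructor <;> intro <;> split_ifs <;> omega

/-- Changing a decycling matrix along two nested final segments. -/
theorem good_change {V : Type} [Finite V] {D : V → V → Prop} {M : V → V → ZMod 2} {r : V → ℤ}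
    (h : Good D M r) (a b : V → ZMod 2) (p q : ℤ) (hpq : p ≤ q)
    (ha : ∀ v, (a v = 0 → r v < p) ∧ (a v = 1 → p < r v))
    (hb : ∀ v, (b v = 0 → r v < q) ∧ (b v = 1 → q < r v)) (α β γ : ZMod 2) :
    ∃ r', Good D (fun u v => M u v + (α * (a u * a v) + β * (a u * b v + b u * a v) +
      γ * (b u * b v))) r' := by
  obtain ⟨K, hK⟩ : ∃ K : ℤ, ∀ v, -K < r v ∧ r v < K := by
    obtain ⟨K1, h1⟩ := (Set.finite_range (fun v => |r v|)).bddAbove
    refine ⟨K1 + 1, fun v => ?_⟩
    have h2 : |r v| ≤ K1 := h1 ⟨v, rfl⟩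
    have := abs_le.1 h2
    constructor <;> linarith
  refine ⟨fun v => newPos K α β γ (a v) (b v) (r v), ?_⟩
  intro u v huv
  have := good_change_aux (α := α) (β := β) (γ := γ) hpq (ha u) (hb u) (ha v) (hb v) (hK u) (hK v)
  exact step (h u v huv) this.1 this.2

end Q125.Inv
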