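import Mathlib
import Pool.Agent.Q125.Inv.Schur

set_option autoImplicit false

namespace Q125.Inv

open Matrix

variable {V W U : Type}

theorem Good.comap {DV : V → V → Prop} {DW : W → W → Prop} {M : W → W → ZMod 2} {r : W → ℤ}
    (h : Good DW M r) (j : V → W) (hj : ∀ u v, DV u v → DW (j u) (j v)) :
    Good DV (fun u v => M (j u) (j v)) (fun v => r (j v)) :=
  fun u v huv => h _ _ (hj u v huv)

theorem Good.flip {DV : V → V → Prop} {M : V → V → ZMod 2} {r : V → ℤ}
    (h : Good DV M r) (hs : ∀ u v, M u v = M v u) :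
    Good (fun u v => DV v u) M (fun v => - r v) := by
  intro u v huv
  have := h v u huv
  rw [hs v u] at this
  exact ⟨fun h => neg_lt_neg (this.1 h), fun h => neg_lt_neg (this.2 h)⟩

variable [Fintype V] [Fintype W]

theorem elim_one_right {DV : V → V → Prop} {DW : W → W → Prop} {M : Matrix W W (ZMod 2)}
    (hs : M.IsSymm) {r : W → ℤ} (hg : Good DW M r) (j : V → W)
    (hj : ∀ u v, DV u v → DW (j u) (j v)) (s : W) (h1 : ∀ v, DW (j v) s) (hss : M s s = 1) :
    ∃ M' : Matrix V V (ZMod 2), M'.IsSymm ∧ M'.rank + 1 ≤ M.rank ∧ ∃ r', Good DV M' r' := by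
  classical
  let S : Fin 1 → W := fun _ => s
  let Q : Matrix (Fin 1) (Fin 1) (ZMod 2) := 1
  have hQ : M.submatrix S S * Q = 1 := by
    ext a b
    fin_cases a
    fin_cases b
    simp [S, Q, hss]
  have hr := rank_schur M j S Q hQ
  have hent : ∀ u v, (M.submatrix j j - M.submatrix j S * Q * M.submatrix S j) u v =
      M (j u) (j v) + M (j u) s * M (j v) s := by
    intro u v
    have hsym : M s (j v) = M (j v) s := hs.apply _ _
    simp only [Q, Matrix.mul_one, Matrix.sub_apply, Matrix.submatrix_apply, Matrix.mul_apply,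
      Finset.univ_unique, Finset.sum_singleton, S, hsym]
    exact CharTwo.sub_eq_add _ _
  refine ⟨_, ?_, hr, ?_⟩
  · ext u v
    rw [Matrix.transpose_apply, hent, hent, hs.apply, mul_comm]
  · obtain ⟨r', hr'⟩ := good_change (hg.comap j hj) (fun v => M (j v) s) (fun v => M (j v) s)
      (r s) (r s) le_rfl (fun v => hg _ _ (h1 v)) (fun v => hg _ _ (h1 v)) 1 0 0
    refine ⟨r', fun u v huv => ?_⟩
    rw [hent]
    simpa using hr' u v huv

theorem elim_two_right_aux {DV : V → V → Prop} {DW : W → W → Prop} {M : Matrix W W (ZMod 2)}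
    (hs : M.IsSymm) {r : W → ℤ} (hg : Good DW M r) (j : V → W)
    (hj : ∀ u v, DV u v → DW (j u) (j v)) (s t : W) (h1 : ∀ v, DW (j v) s)
    (h2 : ∀ v, DW (j v) t) (hdet : M s s * M t t + M s t = 1) (hle : r s ≤ r t) :
    ∃ M' : Matrix V V (ZMod 2), M'.IsSymm ∧ M'.rank + 2 ≤ M.rank ∧ ∃ r', Good DV M' r' := by
  classical
  let S : Fin 2 → W := ![s, t]
  let Q : Matrix (Fin 2) (Fin 2) (ZMod 2) := !![M t t, M s t; M s t, M s s]
  have hts : M t s = M s t := hs.apply _ _
  have hQ : M.submatrix S S * Q = 1 := by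
    have h3 : M.submatrix S S = !![M s s, M s t; M s t, M t t] := by
      ext a b
      fin_cases a <;> fin_cases b <;> simp [S, hts]
    have key : ∀ x y z : ZMod 2, x * y + z = 1 →
        (!![x, z; z, y] : Matrix (Fin 2) (Fin 2) (ZMod 2)) * !![y, z; z, x] = 1 := by
      decide
    rw [h3]
    exact key _ _ _ hdet
  have hr := rank_schur M j S Q hQ
  have hent : ∀ u v, (M.submatrix j j - M.submatrix j S * Q * M.submatrix S j) u v =
      M (j u) (j v) + (M t t * (M (j u) s * M (j v) s) +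
        M s t * (M (j u) s * M (j v) t + M (j u) t * M (j v) s) +
        M s s * (M (j u) t * M (j v) t)) := by
    intro u v
    have hsym1 : M s (j v) = M (j v) s := hs.apply _ _
    have hsym2 : M t (j v) = M (j v) t := hs.apply _ _
    have h4 : (M.submatrix j S * Q * M.submatrix S j) u v =
        (M t t * (M (j u) s * M (j v) s) +
        M s t * (M (j u) s * M (j v) t + M (j u) t * M (j v) s) +
        M s s * (M (j u) t * M (j v) t)) := by
      simp only [Matrix.mul_apply, Fin.sum_univ_two, Matrix.submatrix_apply, S, Q,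
        Matrix.cons_val_zero, Matrix.cons_val_one, Matrix.of_apply, hsym1, hsym2]
      ring
    rw [Matrix.sub_apply, h4, Matrix.submatrix_apply]
    exact CharTwo.sub_eq_add _ _
  refine ⟨_, ?_, hr, ?_⟩
  · ext u v
    rw [Matrix.transpose_apply, hent, hent, hs.apply]
    ring
  · obtain ⟨r', hr'⟩ := good_change (hg.comap j hj) (fun v => M (j v) s) (fun v => M (j v) t)
      (r s) (r t) hle (fun v => hg _ _ (h1 v)) (fun v => hg _ _ (h2 v)) (M t t) (M s t) (M s s)
    refine ⟨r', fun u v huv => ?_⟩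
    rw [hent]
    exact hr' u v huv

theorem elim_two_right {DV : V → V → Prop} {DW : W → W → Prop} {M : Matrix W W (ZMod 2)}
    (hs : M.IsSymm) {r : W → ℤ} (hg : Good DW M r) (j : V → W)
    (hj : ∀ u v, DV u v → DW (j u) (j v)) (s t : W) (h1 : ∀ v, DW (j v) s)
    (h2 : ∀ v, DW (j v) t) (hdet : M s s * M t t + M s t = 1) :
    ∃ M' : Matrix V V (ZMod 2), M'.IsSymm ∧ M'.rank + 2 ≤ M.rank ∧ ∃ r', Good DV M' r' := by
  rcases le_total (r s) (r t) with h | h
  · exact elim_two_right_aux hs hg j hj s t h1 h2 hdet h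
  · refine elim_two_right_aux hs hg j hj t s h2 h1 ?_ h
    have hts : M t s = M s t := hs.apply _ _
    rw [hts, mul_comm]
    exact hdet

/-- If the right part `U` is not acyclic, the rank drops by at least one. -/
theorem elim_right_of_one {DV : V → V → Prop} {DW : W → W → Prop} {DU : U → U → Prop}
    {M : Matrix W W (ZMod 2)}
    (hs : M.IsSymm) {r : W → ℤ} (hg : Good DW M r) (j : V → W) (i : U → W)
    (hj : ∀ u v, DV u v → DW (j u) (j v)) (hi : ∀ x y, DU x y → DW (i x) (i y))
    (hji : ∀ v x, DW (j v) (i x)) (hU : ∀ r : U → ℤ, ¬ ∀ x y, DU x y → r x < r y) :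
    ∃ M' : Matrix V V (ZMod 2), M'.IsSymm ∧ M'.rank + 1 ≤ M.rank ∧ ∃ r', Good DV M' r' := by
  by_cases h : ∃ x, M (i x) (i x) = 1
  · obtain ⟨x, hx⟩ := h
    exact elim_one_right hs hg j hj (i x) (fun v => hji v x) hx
  · push Not at h
    have h0 : ∀ x, M (i x) (i x) = 0 := fun x => (zmod2 _).resolve_right (h x)
    by_cases h2 : ∃ x y, M (i x) (i y) = 1
    · obtain ⟨x, y, hxy⟩ := h2
      obtain ⟨M', h3, h4, h5⟩ := elim_two_right hs hg j hj (i x) (i y) (fun v => hji v x)
        (fun v => hji v y) (by rw [h0, h0, hxy]; decide)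
      exact ⟨M', h3, by omega, h5⟩
    · exfalso
      push Not at h2
      apply hU (fun x => r (i x))
      intro x y hxy
      exact (hg _ _ (hi x y hxy)).1 ((zmod2 _).resolve_right (h2 x y))

/-- If the right part `U` has no decycling matrix of rank at most one, the rank drops by at least
two. -/
theorem elim_right_of_two {DV : V → V → Prop} {DW : W → W → Prop} {DU : U → U → Prop}
    {M : Matrix W W (ZMod 2)}
    (hs : M.IsSymm) {r : W → ℤ} (hg : Good DW M r) (j : V → W) (i : U → W)
    (hj : ∀ u v, DV u v → DW (j u) (j v)) (hi : ∀ x y, DU x y → DW (i x) (i y))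
    (hji : ∀ v x, DW (j v) (i x))
    (hU : ∀ (d : U → ZMod 2) (r : U → ℤ), ¬ Good DU (fun x y => d x * d y) r) :
    ∃ M' : Matrix V V (ZMod 2), M'.IsSymm ∧ M'.rank + 2 ≤ M.rank ∧ ∃ r', Good DV M' r' := by
  by_cases h : ∃ x y, M (i x) (i x) * M (i y) (i y) + M (i x) (i y) = 1
  · obtain ⟨x, y, hxy⟩ := h
    exact elim_two_right hs hg j hj (i x) (i y) (fun v => hji v x) (fun v => hji v y) hxy
  · exfalso
    push Not at h
    apply hU (fun x => M (i x) (i x)) (fun x => r (i x))
    intro x y hxy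
    have h2 : M (i x) (i x) * M (i y) (i y) = M (i x) (i y) := by
      have h3 := (zmod2 _).resolve_right (h x y)
      exact CharTwo.add_eq_zero.1 h3
    show (M (i x) (i x) * M (i y) (i y) = 0 → _) ∧ (M (i x) (i x) * M (i y) (i y) = 1 → _)
    rw [h2]
    exact hg _ _ (hi x y hxy)

/-- Left version of `elim_right_of_one`. -/
theorem elim_left_of_one {DV : V → V → Prop} {DW : W → W → Prop} {DU : U → U → Prop}
    {M : Matrix W W (ZMod 2)}
    (hs : M.IsSymm) {r : W → ℤ} (hg : Good DW M r) (j : V → W) (i : U → W)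
    (hj : ∀ u v, DV u v → DW (j u) (j v)) (hi : ∀ x y, DU x y → DW (i x) (i y))
    (hij : ∀ v x, DW (i x) (j v)) (hU : ∀ r : U → ℤ, ¬ ∀ x y, DU x y → r x < r y) :
    ∃ M' : Matrix V V (ZMod 2), M'.IsSymm ∧ M'.rank + 1 ≤ M.rank ∧ ∃ r', Good DV M' r' := by
  have hg' := hg.flip (fun u v => (hs.apply v u))
  obtain ⟨M', h1, h2, r', h3⟩ := elim_right_of_one (DV := fun u v => DV v u)
    (DU := fun u v => DU v u) hs hg' j i
    (fun u v h => hj v u h) (fun x y h => hi y x h) (fun v x => hij v x) (by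
      intro r0 h0
      apply hU (fun x => - r0 x)
      intro x y hxy
      have := h0 y x hxy
      simpa using this)
  exact ⟨M', h1, h2, _, h3.flip (fun u v => h1.apply v u)⟩

end Q125.Inv
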